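import Pool.Agent.Helper17.SO.Stmts

set_option autoImplicit false

open Finset

namespace Pool.Agent.Helper17.SO

theorem st_DENA (hMER : ST_MER) (hLEG : ST_LEG) : ST_DENA := by
  intro lam hlam
  have hns : ¬ IsSquare (1 - 4 * (lam : ℤ)) := by
    rintro ⟨r, hr⟩
    have h1 : (0 : ℤ) ≤ r * r := mul_self_nonneg r
    have h2 : (1 : ℤ) ≤ (lam : ℤ) := by exact_mod_cast hlam
    omega
  obtain ⟨C1, hC1, h1⟩ := hMER
  obtain ⟨C2, hC2, h2⟩ := hLEG _ hns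
  refine ⟨C1 + C2, add_nonneg hC1 hC2, ?_⟩
  intro u w hu huw
  have e1 := (abs_le.1 (h1 u w hu huw)).1
  have e2 := (abs_le.1 (h2 u w hu huw)).1
  have e3 : ∑ p ∈ PP u w, (1 + (jacobiSym (1 - 4 * (lam : ℤ)) p : ℝ)) / p =
      ∑ p ∈ PP u w, 1 / (p : ℝ) + ∑ p ∈ PP u w, (jacobiSym (1 - 4 * (lam : ℤ)) p : ℝ) / p := by
    rw [← Finset.sum_add_distrib]
    exact Finset.sum_congr rfl (fun p _ => add_div _ _ _)
  rw [e3]
  linarith

end Pool.Agent.Helper17.SO
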